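import Pool.Agent.Helper73.Dil.Pure2

/-!
Pointwise limits of locally bounded sequences of harmonic functions (module `LIMH`).
-/

open Topology Set Filter MeasureTheory Metric

namespace Pool.Agent.Helper73.Dil

open InnerProductSpace Complex in
theorem limh_ball (u : ℕ → ℂ → ℝ) (V : ℂ → ℝ) (hu : ∀ n, HarmonicOnNhd (u n) (ball 0 1))
    (hb : ∀ K ⊆ ball (0 : ℂ) 1, IsCompact K → ∃ M, ∀ n, ∀ z ∈ K, |u n z| ≤ M)
    (hV : ∀ z ∈ ball (0 : ℂ) 1, Tendsto (fun n => u n z) atTop (𝓝 (V z))) :
    HarmonicOnNhd V (ball 0 1) := by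
  intro x hx
  have hx1 : ‖x‖ < 1 := by simpa using hx
  set r : ℝ := (‖x‖ + 1) / 2 with hr
  have hr0 : 0 < r := by
    have := norm_nonneg x
    rw [hr]; linarith
  have hr1 : r < 1 := by rw [hr]; linarith
  have hxr : ‖x‖ < r := by rw [hr]; linarith
  have hcl : closedBall (0 : ℂ) r ⊆ ball 0 1 := closedBall_subset_ball hr1
  have hsph : ∀ θ, circleMap 0 r θ ∈ sphere (0 : ℂ) r := fun θ => circleMap_mem_sphere 0 hr0.le θ
  have hsb : sphere (0 : ℂ) r ⊆ ball 0 1 := sphere_subset_closedBall.trans hcl
  obtain ⟨M, hM⟩ := hb (sphere 0 r) hsb (isCompact_sphere 0 r)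
  have hucont : ∀ n, Continuous fun θ => u n (circleMap 0 r θ) := by
    intro n
    exact (hu n).continuousOn.comp_continuous (continuous_circleMap 0 r) fun θ => hsb (hsph θ)
  have hmeas : Measurable fun θ => V (circleMap 0 r θ) := by
    refine measurable_of_tendsto_metrizable (f := fun n θ => u n (circleMap 0 r θ))
      (fun n => (hucont n).measurable) ?_
    rw [tendsto_pi_nhds]
    exact fun θ => hV _ (hsb (hsph θ))
  have hVM : ∀ θ, |V (circleMap 0 r θ)| ≤ M := by
    intro θ
    refine le_of_tendsto ((continuous_abs.tendsto _).comp (hV _ (hsb (hsph θ)))) ?_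
    exact Eventually.of_forall fun n => hM n _ (hsph θ)
  have hM0 : 0 ≤ M := (abs_nonneg _).trans (hVM 0)
  -- integrability
  have hVint : CircleIntegrable V 0 r := by
    refine (intervalIntegrable_const (c := M)).mono_fun hmeas.aestronglyMeasurable ?_
    refine Eventually.of_forall fun θ => ?_
    simp only [Real.norm_eq_abs]
    exact (hVM θ).trans (le_abs_self M)
  -- the kernel
  have hden : ∀ w ∈ ball (0 : ℂ) r, ∀ θ, r - ‖w‖ ≤ ‖circleMap 0 r θ - w‖ := by
    intro w hw θ
    have h1 : ‖circleMap 0 r θ‖ = r := by simpa using hsph θ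
    have h2 := norm_sub_norm_le (circleMap 0 r θ) w
    rwa [h1] at h2
  have hker : ∀ w ∈ ball (0 : ℂ) r, ∀ θ, ‖herglotzRieszKernel 0 w (circleMap 0 r θ)‖ ≤
      2 * r / (r - ‖w‖) := by
    intro w hw θ
    have hwr : ‖w‖ < r := by simpa using hw
    have h1 : ‖circleMap 0 r θ‖ = r := by simpa using hsph θ
    rw [herglotzRieszKernel_def]
    simp only [sub_zero]
    rw [norm_div]
    have h3 := norm_add_le (circleMap 0 r θ) w
    rw [h1] at h3
    exact div_le_div₀ (by linarith [norm_nonneg w]) (by linarith) (by linarith) (hden w hw θ)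
  -- the Poisson formula for the limit
  have hPois : ∀ w ∈ ball (0 : ℂ) r,
      V w = Real.circleAverage ((re ∘ herglotzRieszKernel 0 w) • V) 0 r := by
    intro w hw
    have hw1 : w ∈ ball (0 : ℂ) 1 := ball_subset_ball hr1.le hw
    have h1 : ∀ n, Real.circleAverage ((re ∘ herglotzRieszKernel 0 w) • u n) 0 r = u n w := fun n =>
      HarmonicOnNhd.circleAverage_re_herglotzRieszKernel_smul ((hu n).mono hcl) hw
    have hkc : Continuous fun θ => herglotzRieszKernel 0 w (circleMap 0 r θ) := by
      have := continuousOn_herglotzRieszKernel_sphere hw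
      rw [abs_of_pos hr0] at this
      exact this.comp_continuous (continuous_circleMap 0 r) hsph
    refine tendsto_nhds_unique (hV w hw1) ?_
    have h2 : (fun n => u n w) =
        fun n => Real.circleAverage ((re ∘ herglotzRieszKernel 0 w) • u n) 0 r := by
      funext n
      rw [h1]
    rw [h2]
    unfold Real.circleAverage
    refine Tendsto.const_smul ?_ _
    refine intervalIntegral.tendsto_integral_filter_of_dominated_convergence
      (fun _ => 2 * r / (r - ‖w‖) * M) ?_ ?_ intervalIntegrable_const ?_
    · refine Eventually.of_forall fun n => Continuous.aestronglyMeasurable ?_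
      exact (continuous_re.comp hkc).smul (hucont n)
    · refine Eventually.of_forall fun n => Eventually.of_forall fun θ _ => ?_
      simp only [Pi.smul_apply', Function.comp_apply, smul_eq_mul, norm_mul, Real.norm_eq_abs]
      refine mul_le_mul ((abs_re_le_norm _).trans (hker w hw θ)) (hM n _ (hsph θ)) (abs_nonneg _) ?_
      have hwr : ‖w‖ < r := by simpa using hw
      exact div_nonneg (by linarith) (by linarith)
    · refine Eventually.of_forall fun θ _ => ?_
      simp only [Pi.smul_apply', smul_eq_mul]
      exact (hV _ (hsb (hsph θ))).const_mul _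
  -- the holomorphic function
  set g : ℂ → ℂ := fun w =>
    Real.circleAverage (fun ζ => herglotzRieszKernel 0 w ζ • (V ζ : ℂ)) 0 r with hg
  have hgre : ∀ w ∈ ball (0 : ℂ) r, (g w).re = V w := by
    intro w hw
    rw [hPois w hw, hg]
    exact re_circleAverage_herglotzRieszKernel_smul hVint hw
  have hgd : DifferentiableOn ℂ g (ball 0 r) := by
    intro w₀ hw₀
    refine DifferentiableAt.differentiableWithinAt ?_
    have hw0 : ‖w₀‖ < r := by simpa using hw₀
    set ε : ℝ := (r - ‖w₀‖) / 2 with hε
    have hε0 : 0 < ε := by rw [hε]; linarith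
    have hs : ball w₀ ε ⊆ ball (0 : ℂ) r := by
      intro w hw
      have h1 : ‖w - w₀‖ < ε := by simpa [dist_eq_norm] using hw
      have h2 := norm_add_le (w - w₀) w₀
      rw [sub_add_cancel] at h2
      simp only [mem_ball, dist_zero_right]
      rw [hε] at h1
      linarith
    have hsε : ∀ w ∈ ball w₀ ε, ∀ θ, ε ≤ ‖circleMap 0 r θ - w‖ := by
      intro w hw θ
      have h1 : ‖w - w₀‖ < ε := by simpa [dist_eq_norm] using hw
      have h2 := norm_add_le (w - w₀) w₀
      rw [sub_add_cancel] at h2
      refine le_trans ?_ (hden w (hs hw) θ)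
      have : r - ‖w₀‖ = 2 * ε := by rw [hε]; ring
      linarith
    have hVmc : Measurable fun θ => ((V (circleMap 0 r θ) : ℝ) : ℂ) :=
      measurable_ofReal.comp hmeas
    have key := intervalIntegral.hasDerivAt_integral_of_dominated_loc_of_deriv_le
      (μ := volume) (a := 0) (b := 2 * Real.pi)
      (F := fun w θ => herglotzRieszKernel 0 w (circleMap 0 r θ) • ((V (circleMap 0 r θ) : ℝ) : ℂ))
      (F' := fun w θ => (2 * circleMap 0 r θ / (circleMap 0 r θ - w) ^ 2) *
        ((V (circleMap 0 r θ) : ℝ) : ℂ))
      (bound := fun _ => 2 * r / ε ^ 2 * M) (x₀ := w₀) (s := ball w₀ ε)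
      (ball_mem_nhds w₀ hε0) ?_ ?_ ?_ ?_ intervalIntegrable_const ?_
    · have h1 := key.2.differentiableAt
      rw [hg]
      unfold Real.circleAverage
      exact h1.const_smul _
    · refine Eventually.of_forall fun w => Measurable.aestronglyMeasurable ?_
      simp only [smul_eq_mul]
      refine Measurable.mul ?_ hVmc
      simp only [herglotzRieszKernel_fun_def]
      have := (continuous_circleMap (0 : ℂ) r).measurable
      fun_prop
    · refine (intervalIntegrable_const (c := 2 * r / (r - ‖w₀‖) * M)).mono_fun ?_ ?_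
      · refine Measurable.aestronglyMeasurable ?_
        simp only [smul_eq_mul]
        refine Measurable.mul ?_ hVmc
        simp only [herglotzRieszKernel_fun_def]
        have := (continuous_circleMap (0 : ℂ) r).measurable
        fun_prop
      · refine Eventually.of_forall fun θ => ?_
        simp only [smul_eq_mul, norm_mul, norm_real, Real.norm_eq_abs]
        have h1 : 0 ≤ 2 * r / (r - ‖w₀‖) := div_nonneg (by linarith) (by linarith)
        rw [abs_of_nonneg h1, abs_of_nonneg hM0]
        exact mul_le_mul (hker w₀ hw₀ θ) (hVM θ) (abs_nonneg _) h1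
    · refine Measurable.aestronglyMeasurable ?_
      refine Measurable.mul ?_ hVmc
      have := (continuous_circleMap (0 : ℂ) r).measurable
      fun_prop
    · refine Eventually.of_forall fun θ _ w hw => ?_
      have h1 : ‖circleMap 0 r θ‖ = r := by simpa using hsph θ
      have h2 := hsε w hw θ
      simp only [norm_mul, norm_div, norm_pow, norm_real, Real.norm_eq_abs, h1]
      have h3 : ‖(2 : ℂ)‖ = 2 := by simp
      rw [h3]
      refine mul_le_mul ?_ (hVM θ) (abs_nonneg _) (by positivity)
      exact div_le_div_of_nonneg_left (by positivity) (by positivity)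
        (pow_le_pow_left₀ hε0.le h2 2)
    · refine Eventually.of_forall fun θ _ w hw => ?_
      have hne : circleMap 0 r θ - w ≠ 0 := by
        rw [← norm_pos_iff]
        exact hε0.trans_le (hsε w hw θ)
      simp only [herglotzRieszKernel_def, sub_zero, smul_eq_mul]
      refine HasDerivAt.mul_const ?_ _
      have h1 : HasDerivAt (fun w : ℂ => circleMap 0 r θ + w) 1 w := (hasDerivAt_id w).const_add _
      have h2 : HasDerivAt (fun w : ℂ => circleMap 0 r θ - w) (-1) w := by
        simpa using (hasDerivAt_id w).const_sub (circleMap 0 r θ)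
      have h3 := h1.div h2 hne
      have h4 : (1 * (circleMap 0 r θ - w) - (circleMap 0 r θ + w) * -1) /
          (circleMap 0 r θ - w) ^ 2 = 2 * circleMap 0 r θ / (circleMap 0 r θ - w) ^ 2 := by
        congr 1
        ring
      rw [h4] at h3
      exact h3
  have hxb : x ∈ ball (0 : ℂ) r := by simpa using hxr
  have hga : AnalyticAt ℂ g x := hgd.analyticAt (isOpen_ball.mem_nhds hxb)
  refine (harmonicAt_congr_nhds ?_).mp hga.harmonicAt_re
  filter_upwards [isOpen_ball.mem_nhds hxb] with w hw
  exact hgre w hw

theorem st_LIMH : ST_LIMH := by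
  intro h V hd hb hV
  -- the Cayley transform
  set φ : ℂ → ℂ := fun z => Complex.I * (1 + z) / (1 - z) with hφ
  set ψ : ℂ → ℂ := fun t => (t - Complex.I) / (t + Complex.I) with hψ
  have hφne : ∀ z ∈ ball (0 : ℂ) 1, (1 : ℂ) - z ≠ 0 := by
    intro z hz h0
    have h1 : z = 1 := (sub_eq_zero.mp h0).symm
    rw [h1] at hz
    simp at hz
  have hφim : ∀ z ∈ ball (0 : ℂ) 1, φ z ∈ UH := by
    intro z hz
    have hz1 : ‖z‖ < 1 := by simpa using hz
    have h2 : Complex.normSq z < 1 := by
      rw [Complex.normSq_eq_norm_sq]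
      nlinarith [norm_nonneg z]
    have h3 : 0 < Complex.normSq (1 - z) := Complex.normSq_pos.mpr (hφne z hz)
    show 0 < (φ z).im
    have h4 : (φ z).im = (1 - Complex.normSq z) / Complex.normSq (1 - z) := by
      rw [hφ]
      simp only [Complex.div_im, Complex.mul_im, Complex.mul_re, Complex.I_re, Complex.I_im,
        Complex.add_re, Complex.add_im, Complex.sub_re, Complex.sub_im, Complex.one_re,
        Complex.one_im]
      field_simp
      rw [Complex.normSq_apply z]
      ring
    rw [h4]
    exact div_pos (by linarith) h3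
  have hφd : DifferentiableOn ℂ φ (ball 0 1) := by
    intro z hz
    refine DifferentiableAt.differentiableWithinAt ?_
    exact (((differentiableAt_const _).add differentiableAt_id).const_mul _).div
      ((differentiableAt_const _).sub differentiableAt_id) (hφne z hz)
  have hUH : IsOpen UH := isOpen_lt continuous_const Complex.continuous_im
  have hu : ∀ n, InnerProductSpace.HarmonicOnNhd (fun z => (h n (φ z)).re) (ball 0 1) := by
    intro n z hz
    have h1 : DifferentiableOn ℂ (fun z => h n (φ z)) (ball 0 1) :=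
      (hd n).comp hφd hφim
    exact (h1.analyticAt (isOpen_ball.mem_nhds hz)).harmonicAt_re
  have hharm := limh_ball (fun n z => (h n (φ z)).re) (fun z => V (φ z)) hu (by
    intro K hK hKc
    obtain ⟨M, hM⟩ := hb (φ '' K) (by
      rintro _ ⟨z, hz, rfl⟩
      exact hφim z (hK hz)) (hKc.image_of_continuousOn (hφd.continuousOn.mono hK))
    exact ⟨M, fun n z hz => hM n _ ⟨z, hz, rfl⟩⟩) (fun z hz => hV _ (hφim z hz))
  obtain ⟨F, hF, hFV⟩ := hharm.exists_analyticOnNhd_ball_re_eq
  have hψne : ∀ t ∈ UH, t + Complex.I ≠ 0 := by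
    intro t ht h0
    have h1 := congrArg Complex.im h0
    simp only [Complex.add_im, Complex.I_im, Complex.zero_im] at h1
    have h2 : 0 < t.im := ht
    linarith
  have hψb : ∀ t ∈ UH, ψ t ∈ ball (0 : ℂ) 1 := by
    intro t ht
    have h2 : 0 < t.im := ht
    simp only [mem_ball, dist_zero_right, hψ, norm_div]
    rw [div_lt_one (norm_pos_iff.mpr (hψne t ht))]
    rw [← sq_lt_sq₀ (norm_nonneg _) (norm_nonneg _), ← Complex.normSq_eq_norm_sq,
      ← Complex.normSq_eq_norm_sq, Complex.normSq_apply, Complex.normSq_apply]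
    simp only [Complex.sub_re, Complex.sub_im, Complex.add_re, Complex.add_im, Complex.I_re,
      Complex.I_im]
    nlinarith
  have hψd : DifferentiableOn ℂ ψ UH := by
    intro t ht
    refine DifferentiableAt.differentiableWithinAt ?_
    exact (differentiableAt_id.sub (differentiableAt_const _)).div
      (differentiableAt_id.add (differentiableAt_const _)) (hψne t ht)
  refine ⟨fun t => F (ψ t), hF.differentiableOn.comp hψd hψb, fun t ht => ?_⟩
  have h1 := hFV (hψb t ht)
  simp only at h1
  have h2 : φ (ψ t) = t := by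
    have h3 := hψne t ht
    have h4 : (1 : ℂ) - (t - Complex.I) / (t + Complex.I) ≠ 0 := by
      have := hφne (ψ t) (hψb t ht)
      exact this
    rw [hφ, hψ]
    simp only
    rw [div_eq_iff h4]
    field_simp
    ring
  rw [h1, h2]

end Pool.Agent.Helper73.Dil
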